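import Pool.Agent.Lib.MP_660a49_lc.Coding

/-!
# The two Ulm-theory test statements do not imply `Π^1_1` comprehension

Both statements are true, and they have the form `∀ X (θ(X) → ∃ Y ψ(X, Y))` with `θ` of class
`Σ^1_1` and `ψ` arithmetical.  Hence they hold in every beta-model.  We build a beta-model in which
`Π^1_1` comprehension fails.
-/

namespace Pool.Agent.Results.MP_660a49_lc.NoReversal

open Pool.Agent.Lib.MP_660a49_lc

/-- There is an omega-model of `RCA_0` which satisfies both statements (a) and (b) and which is not a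
model of `Π^1_1-CA_0`.  In particular `RCA_0 + (a) + (b)` does not prove `Π^1_1-CA_0`. -/
theorem result :
    ∃ (𝒮 : Set (Set ℕ)) (h : 𝒮.Nonempty),
      Models (omega 𝒮 h) (RCA0 ∪ {statementA, statementB}) ∧ ¬ Models (omega 𝒮 h) Pi11CA0 := by
  obtain ⟨𝒮, hP, hS, hβ⟩ := exists_beta notDef_diag
  refine ⟨𝒮, ⟨_, hP⟩, ?_, not_models_Pi11CA0 hP hS hβ⟩
  rintro φ (hφ | rfl | rfl) v V hV
  · exact models_RCA0 ⟨_, hP⟩ hβ φ hφ v V hV
  · exact sat_statementA hβ hV
  · exact sat_statementB hβ hV

end Pool.Agent.Results.MP_660a49_lc.NoReversal
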